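import Pool.Agent.RGD.CONE
import Pool.Agent.RGD.GREEN
import Pool.Agent.RGD.CARD
import Pool.Agent.RGD.EXT
import Pool.Agent.RGD.SELF
import Pool.Agent.RGD.SCP
import Pool.Agent.RGD.LO
import Pool.Agent.RBG.AXP
import Pool.Agent.RBG.RHO
import Pool.Agent.RBG.RF
import Pool.Agent.RBG.B1
import Pool.Agent.RBG.B2
import Pool.Agent.RBG.B3
import Pool.Agent.RBG.CD
import Pool.Agent.RBG.OL
import Pool.Agent.RBG.NEAR
import Pool.Agent.RBG.LL
import Pool.Agent.RBG.PRE
import Pool.Agent.RBG.CNTQ
import Pool.Agent.RBG.TWO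
import Pool.Agent.RBG.STEP
import Pool.Agent.RBG.MARK
import Pool.Agent.RBG.BASE
import Pool.Agent.RBG.FIX
import Pool.Agent.RBG.DYN
import Pool.Agent.RBG.XT
import Pool.Agent.RBG.LIFT
import Pool.Agent.RBG.NL
import Pool.Agent.RBG.FB
import Pool.Agent.RBG.TOP
import Pool.Agent.RBG.GEOM
import Pool.Agent.RBG.DET
import Pool.Agent.RBG.NN
import Pool.Agent.RBG.ANTIW
import Pool.Agent.RBG.BLK
import Pool.Agent.RBG.EVP
import Pool.Agent.RBG.MAINB
import Pool.Agent.RBG.DIAG

/-!
# MP_0a3593_al: graphical discreteness of random groups for graphs with bounded constants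

A group is graphically discrete iff `RBG.GDR R` holds for all `R`: every geometric action on a connected
locally finite graph whose orbit map is an `(R, R)`-quasi-isometry has compact-by-discrete `Aut X`.
For every fixed `R` this holds asymptotically almost surely, in the few-relator model for all `m`, `k`
and in the density model for all small densities. In the few-relator models and the models with
subexponentially many relators it holds with constants `R l` which tend to infinity with the length `l`.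
-/

set_option autoImplicit false

namespace Pool.Agent.Results.MP_0a3593_al.BoundedGraphs

open RBG RGD Filter Topology

/-- (1) For every `R` there is `d > 0` such that, for all `m ≥ 2` and all sequences `N l` with
`1 ≤ N l ≤ (2m-1)^(d l)` for large `l`, the random group with `m` generators and `N l` relators of length
`l` satisfies asymptotically almost surely: for every action of the group by automorphisms on a
connected locally finite graph `X` whose orbit map is an `(R, R)`-quasi-isometry, the group `Aut X` is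
compact-by-discrete.
(2) For every sequence `ε l → 0` there is a sequence `R l → ∞` such that, for all `m ≥ 2` and all
sequences `N l` with `1 ≤ N l ≤ (2m-1)^(ε l * l)` for large `l`, the random group with `m` generators and
`N l` relators of length `l` satisfies this asymptotically almost surely with `R = R l`. -/
theorem result :
    (∀ R : ℕ, ∃ d : ℝ, 0 < d ∧ ∀ (m : ℕ) (N : ℕ → ℕ), 2 ≤ m →
      (∀ᶠ l : ℕ in atTop, 1 ≤ N l ∧ (N l : ℝ) ≤ ((2 * m - 1 : ℕ) : ℝ) ^ (d * l)) →
      Tendsto (fun l : ℕ => prob m l (N l) fun r => GDR R (rels r)) atTop (𝓝 1)) ∧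
    ∀ ε : ℕ → ℝ, Tendsto ε atTop (𝓝 0) → ∃ R : ℕ → ℕ, Tendsto R atTop atTop ∧
      ∀ (m : ℕ) (N : ℕ → ℕ), 2 ≤ m →
        (∀ᶠ l : ℕ in atTop, 1 ≤ N l ∧ (N l : ℝ) ≤ ((2 * m - 1 : ℕ) : ℝ) ^ (ε l * l)) →
        Tendsto (fun l : ℕ => prob m l (N l) fun r => GDR (R l) (rels r)) atTop (𝓝 1) := by
  have hC := RGD.t_CONE cTREE cLINE cAXOV
  have hG := RGD.t_GREEN cTREE cLINE cAXOV hC
  have hSH := t_SH hG
  have hRF := t_RF t_AXP
  have hB1 := t_B1 hG t_RHO hSH
  have hB2 := t_B2 hG hB1
  have hB3 := t_B3 hRF hB1 hB2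
  have hCD := t_CD t_AXP hRF hB3
  have hNEAR := t_NEAR hRF hCD
  have hLL := t_LL hRF hCD t_OL
  have hPRE := t_PRE hRF
  have hCNTQ := t_CNTQ hRF hNEAR hLL hPRE
  have hTWO := t_TWO hRF
  have hSTEP := t_STEP hRF hB3 hCD t_OL hNEAR hLL hCNTQ hTWO
  have hBASE := t_BASE hRF hB3 hCD t_OL
  have hFIX := t_FIX hRF hPRE
  have hDYN := t_DYN hRF hNEAR hTWO hSTEP t_MARK hBASE hFIX
  have hXT := t_XT hSH
  have hLIFT := t_LIFT hSH
  have hNL := t_NL hXT hLIFT
  have hFB := t_FB hSH hXT
  have hDET := t_DET hB3 hDYN hXT hNL hFB t_TOP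
  have hNN := t_NN hRF
  have hANTIW := t_ANTIW RGD.t_LO
  have hEVP := t_EVP hNN hANTIW t_BLK
  have hM : RBG.MainStmt :=
    t_MAINB (t_GEOM hG) hDET (RGD.t_SCP RGD.t_CARD RGD.t_EXT RGD.t_SELF) hEVP
  exact ⟨hM, t_DIAG hM⟩

end Pool.Agent.Results.MP_0a3593_al.BoundedGraphs
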