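import Pool.Agent.RGD.TREE
import Pool.Agent.RGD.LINE
import Pool.Agent.RGD.AXOV
import Pool.Agent.RGD.CONE
import Pool.Agent.RGD.GREEN
import Pool.Agent.RGD.SHORT
import Pool.Agent.RGD.GL
import Pool.Agent.RGD.WALK
import Pool.Agent.RGD.CNT
import Pool.Agent.RGD.RIG
import Pool.Agent.RGD.CARD
import Pool.Agent.RGD.EXT
import Pool.Agent.RGD.SELF
import Pool.Agent.RGD.SCP
import Pool.Agent.RGD.UV
import Pool.Agent.RGD.LO
import Pool.Agent.RGD.ANTI
import Pool.Agent.RGD.DCP
import Pool.Agent.RGD.MAIN

/-!
# MP_0a3593_al: Cayley graphs of random groups are rigid and have discrete automorphism groups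

`RGD.prob m l n Q` is the probability of `Q` for `n` independent uniformly distributed cyclically
reduced words of length `l` in `a_1, …, a_m`; `RGD.Cay (RGD.rels r)` is the Cayley graph with respect to
`a_1, …, a_m` of the group with these generators and the relators `r`. The few-relator model is
`N l = k`, the density model (for densities at most `d0`) is `N l = ⌊(2m-1)^(d l)⌋`.
-/

set_option autoImplicit false

namespace Pool.Agent.Results.MP_0a3593_al.RandomCayley

open RGD Filter Topology

/-- There is an absolute constant `d0 > 0` such that, for all `m ≥ 2` and all sequences `N l` with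
`1 ≤ N l ≤ (2m-1)^(d0 l)` for large `l`, asymptotically almost surely every automorphism of the Cayley
graph of the random group that fixes two adjacent vertices is the identity, and the automorphism
group is discrete. -/
theorem result : ∃ d0 : ℝ, 0 < d0 ∧ ∀ (m : ℕ) (N : ℕ → ℕ), 2 ≤ m →
    (∀ᶠ l : ℕ in atTop, 1 ≤ N l ∧ (N l : ℝ) ≤ ((2 * m - 1 : ℕ) : ℝ) ^ (d0 * l)) →
    Tendsto (fun l : ℕ => prob m l (N l) fun r => Rigid (Cay (rels r)) ∧ DiscAut (Cay (rels r)))
      atTop (𝓝 1) := by
  have hA := t_AXOV t_TREE t_LINE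
  have hC := t_CONE t_TREE t_LINE hA
  have hG := t_GREEN t_TREE t_LINE hA hC
  exact t_MAIN (t_SHORT hG) (t_RIG t_GL (t_WALK t_GL) t_CNT) (t_SCP t_CARD t_EXT t_SELF)
    (t_DCP (t_ANTI t_UV t_LO))

end Pool.Agent.Results.MP_0a3593_al.RandomCayley
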